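import Pool.Agent.H34.VM.Base

/-!
# MP_d3cc9f_co, parts C1, C2, C3: counting (helper66)
-/

set_option autoImplicit false

namespace H34.VM

open Set

/-- the number of elements stabilising a coset, times the number of cosets -/
theorem c_card_stab {G : Type} [Group G] [Finite G] (L : Subgroup G) (c : G ⧸ L) :
    {x : G | x • c = c}.ncard = Nat.card L := by
  induction c using QuotientGroup.induction_on with
  | H g =>
    have h1 : {x : G | x • (g : G ⧸ L) = (g : G ⧸ L)} = (fun l : G => g * l * g⁻¹) '' (L : Set G) := by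
      ext x
      constructor
      · intro h
        have h2 : ((x * g : G) : G ⧸ L) = (g : G ⧸ L) := h
        rw [QuotientGroup.eq] at h2
        have h3 := L.inv_mem h2
        refine ⟨g⁻¹ * (x * g), ?_, by group⟩
        have e : g⁻¹ * (x * g) = ((x * g)⁻¹ * g)⁻¹ := by group
        rw [e]
        exact h3
      · rintro ⟨l, hl, rfl⟩
        show ((g * l * g⁻¹ * g : G) : G ⧸ L) = (g : G ⧸ L)
        rw [QuotientGroup.eq]
        have e : (g * l * g⁻¹ * g)⁻¹ * g = l⁻¹ := by group
        rw [e]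
        exact L.inv_mem hl
    rw [h1, ncard_image_of_injective]
    · rfl
    · intro a b hab
      simpa using hab

open Classical in
/-- double counting -/
theorem c_double {α β : Type} [Fintype α] [Fintype β] (P : α → β → Prop) :
    ∑ a : α, {b | P a b}.ncard = ∑ b : β, {a | P a b}.ncard := by
  have h1 : ∀ a : α, {b | P a b}.ncard = ∑ b : β, if P a b then 1 else 0 := by
    intro a
    rw [Finset.sum_boole, ncard_eq_toFinset_card']
    simp
  have h2 : ∀ b : β, {a | P a b}.ncard = ∑ a : α, if P a b then 1 else 0 := by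
    intro b
    rw [Finset.sum_boole, ncard_eq_toFinset_card']
    simp
  simp only [h1, h2]
  exact Finset.sum_comm

open Classical in
/-- few elements have a large value -/
theorem c_mark {α : Type} [Fintype α] (f : α → ℕ) (F : ℕ) :
    F * {a | F < f a}.ncard ≤ ∑ a : α, f a := by
  rw [ncard_eq_toFinset_card', mul_comm]
  have h1 : ∑ a ∈ {a | F < f a}.toFinset, F ≤ ∑ a ∈ {a | F < f a}.toFinset, f a :=
    Finset.sum_le_sum fun a ha => (by simpa using ha : F < f a).le
  rw [Finset.sum_const, smul_eq_mul] at h1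
  exact h1.trans (Finset.sum_le_sum_of_subset (Finset.subset_univ _))

theorem t_C1 : S_fixcount := by
  intro G _ _ L F
  have : Fintype G := Fintype.ofFinite G
  have : Fintype (G ⧸ L) := Fintype.ofFinite _
  refine (c_mark (fun x => fix L x) F).trans (le_of_eq ?_)
  have h1 := c_double (fun (x : G) (c : G ⧸ L) => x • c = c)
  have h2 : ∀ x : G, fix L x = {c : G ⧸ L | x • c = c}.ncard := fun x => rfl
  simp only [h2]
  rw [h1]
  simp only [c_card_stab]
  rw [Finset.sum_const, smul_eq_mul, Finset.card_univ, ← Nat.card_eq_fintype_card,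
    Subgroup.card_eq_card_quotient_mul_card_subgroup L]

theorem t_C2 : S_rootcount := by
  intro G _ _ L F
  have : Fintype G := Fintype.ofFinite G
  have h0 : 0 < Nat.card L := Nat.card_pos
  have h1 := c_mark (fun x : G => {y : G | y ^ 2 * x⁻¹ ∈ L}.ncard) (F * Nat.card L)
  have h2 := c_double (fun (x : G) (y : G) => y ^ 2 * x⁻¹ ∈ L)
  rw [h2] at h1
  have h3 : ∀ y : G, {x : G | y ^ 2 * x⁻¹ ∈ L}.ncard = Nat.card L := by
    intro y
    have h4 : {x : G | y ^ 2 * x⁻¹ ∈ L} = (fun l : G => l * y ^ 2) '' (L : Set G) := by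
      ext x
      constructor
      · intro h
        refine ⟨(y ^ 2 * x⁻¹)⁻¹, L.inv_mem h, by group⟩
      · rintro ⟨l, hl, rfl⟩
        show y ^ 2 * (l * y ^ 2)⁻¹ ∈ L
        have e : y ^ 2 * (l * y ^ 2)⁻¹ = l⁻¹ := by group
        rw [e]
        exact L.inv_mem hl
    rw [h4, ncard_image_of_injective _ (mul_left_injective (y ^ 2))]
    rfl
  simp only [h3] at h1
  rw [Finset.sum_const, smul_eq_mul, Finset.card_univ, ← Nat.card_eq_fintype_card] at h1
  have h5 : Nat.card L * (F * {x : G | F * Nat.card L < {y : G | y ^ 2 * x⁻¹ ∈ L}.ncard}.ncard) ≤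
      Nat.card L * Nat.card G := by
    calc _ = F * Nat.card L * {x : G | F * Nat.card L < {y : G | y ^ 2 * x⁻¹ ∈ L}.ncard}.ncard := by
          ring
      _ ≤ Nat.card G * Nat.card L := h1
      _ = _ := mul_comm _ _
  exact Nat.le_of_mul_le_mul_left h5 h0

theorem c_fixed {G : Type} [Group G] (L : Subgroup G) (g x : G) :
    g • (x : G ⧸ L) = (x : G ⧸ L) ↔ x⁻¹ * g * x ∈ L := by
  have h1 : g • (x : G ⧸ L) = ((g * x : G) : G ⧸ L) := rfl
  rw [h1, QuotientGroup.eq]
  have e : (g * x)⁻¹ * x = (x⁻¹ * g * x)⁻¹ := by group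
  rw [e]
  exact L.inv_mem_iff

theorem c_count {G : Type} [Group G] [Finite G] (L : Subgroup G) (g : G) :
    {x : G | x⁻¹ * g * x ∈ L}.ncard = Nat.card L * fix L g := by
  have h1 : {x : G | x⁻¹ * g * x ∈ L} = (QuotientGroup.mk : G → G ⧸ L) ⁻¹'
      {c : G ⧸ L | g • c = c} := by
    ext x
    exact (c_fixed L g x).symm
  have h2 := Nat.card_congr (QuotientGroup.preimageMkEquivSubgroupProdSet L
    {c : G ⧸ L | g • c = c})
  rw [Nat.card_prod] at h2
  rw [h1]
  exact h2

theorem c_gen {G : Type} [Group G] [Finite G] (L : Subgroup G) (hL : (Nat.card L).Prime) {a : G}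
    (ha : a ∈ L) (ha1 : a ≠ 1) : L = Subgroup.zpowers a := by
  have h1 : Subgroup.zpowers a ≤ L := by
    rw [Subgroup.zpowers_le]
    exact ha
  have h2 : Nat.card (Subgroup.zpowers a) ∣ Nat.card L := Subgroup.card_dvd_of_le h1
  rcases (Nat.dvd_prime hL).1 h2 with h3 | h3
  · exfalso
    apply ha1
    rw [Subgroup.card_eq_one, Subgroup.zpowers_eq_bot] at h3
    exact h3
  · exact (Subgroup.eq_of_le_of_card_ge h1 h3.ge).symm

theorem t_C3 : S_fixhalf := by
  intro G _ _ L g hL ⟨c0, hc0⟩
  by_contra hlt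
  rw [not_le] at hlt
  have hcard := Subgroup.card_eq_card_quotient_mul_card_subgroup L
  have h0 : 0 < Nat.card L := Nat.card_pos
  have h1 : Nat.card G < 2 * {x : G | x⁻¹ * g * x ∈ L}.ncard := by
    rw [c_count, hcard]
    calc Nat.card (G ⧸ L) * Nat.card L < 2 * fix L g * Nat.card L := Nat.mul_lt_mul_of_pos_right hlt h0
      _ = _ := by ring
  have hne : {x : G | x⁻¹ * g * x ∈ L}.Nonempty := by
    rw [← ncard_pos]
    omega
  obtain ⟨x0, hx0⟩ := hne
  have hg1 : g ≠ 1 := by
    rintro rfl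
    exact hc0 (one_smul _ _)
  have hgen : ∀ x : G, x⁻¹ * g * x ∈ L → L = Subgroup.zpowers (x⁻¹ * g * x) := by
    intro x hx
    refine c_gen L hL hx fun h => hg1 ?_
    have e : g = x * (x⁻¹ * g * x) * x⁻¹ := by group
    rw [e, h]
    group
  have hconj : ∀ (x y : G) (k : ℤ), x⁻¹ * y * (y⁻¹ * g * y) ^ k * (x⁻¹ * y)⁻¹ = (x⁻¹ * g * x) ^ k := by
    intro x y k
    rw [← conj_zpow]
    congr 1
    group
  have hsub : {x : G | x⁻¹ * g * x ∈ L} ⊆ (fun n : G => x0 * n) '' (Subgroup.normalizer (L : Set G) : Set G) := by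
    intro x hx
    refine ⟨x0⁻¹ * x, ?_, by group⟩
    show x0⁻¹ * x ∈ Subgroup.normalizer (L : Set G)
    rw [Subgroup.mem_normalizer_iff]
    intro h
    constructor
    · intro hh
      rw [hgen x hx, Subgroup.mem_zpowers_iff] at hh
      obtain ⟨k, rfl⟩ := hh
      rw [hconj]
      exact L.zpow_mem hx0 k
    · intro hh
      rw [hgen x0 hx0, Subgroup.mem_zpowers_iff] at hh
      obtain ⟨k, hk⟩ := hh
      have e : h = x⁻¹ * x0 * (x0⁻¹ * g * x0) ^ k * (x⁻¹ * x0)⁻¹ := by
        rw [hk]
        group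
      rw [e, hconj]
      exact L.zpow_mem hx k
  have h2 := ncard_le_ncard hsub (toFinite _)
  rw [ncard_image_of_injective _ (mul_right_injective x0)] at h2
  have h3 : (Subgroup.normalizer (L : Set G) : Set G).ncard =
    Nat.card (Subgroup.normalizer (L : Set G)) := rfl
  rw [h3] at h2
  have h4 := Subgroup.card_subgroup_dvd_card (Subgroup.normalizer (L : Set G))
  have h5 : Nat.card (Subgroup.normalizer (L : Set G)) = Nat.card G := by
    obtain ⟨k, hk⟩ := h4
    have hpos : 0 < Nat.card G := Nat.card_pos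
    have hk2 : k < 2 := by
      by_contra hk2
      have : Nat.card (Subgroup.normalizer (L : Set G)) * 2 ≤ Nat.card G := by
        conv_rhs => rw [hk]
        exact Nat.mul_le_mul_left _ (by omega)
      omega
    interval_cases k
    · omega
    · omega
  have h6 := Subgroup.eq_top_of_card_eq _ h5
  apply hc0
  induction c0 using QuotientGroup.induction_on with
  | H x =>
    rw [c_fixed]
    have h7 : x⁻¹ * x0 ∈ Subgroup.normalizer (L : Set G) := by rw [h6]; trivial
    rw [Subgroup.mem_normalizer_iff] at h7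
    have h8 := (h7 (x0⁻¹ * g * x0)).1 hx0
    have e : x⁻¹ * x0 * (x0⁻¹ * g * x0) * (x⁻¹ * x0)⁻¹ = x⁻¹ * g * x := by group
    rw [e] at h8
    exact h8

end H34.VM
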