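import Pool.Agent.H34.VM.Base

/-!
# MP_d3cc9f_co, part I: one more generic element (helper66)
-/

set_option autoImplicit false

namespace H34.VM

open Set

theorem i_bUnion {ι G : Type} [Finite ι] [Finite G] (S : Set ι) (B : ι → Set G) (m : ℕ)
    (h : ∀ u ∈ S, (B u).ncard ≤ m) : (⋃ u ∈ S, B u).ncard ≤ S.ncard * m := by
  classical
  have h1 : (⋃ u ∈ S, B u) = ((S.toFinite.toFinset.biUnion fun u => (B u).toFinite.toFinset :
      Finset G) : Set G) := by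
    ext x
    simp
  rw [h1, ncard_coe_finset, ncard_eq_toFinset_card S]
  refine Finset.card_biUnion_le_card_mul _ _ _ fun u hu => ?_
  rw [← ncard_eq_toFinset_card (B u)]
  exact h u (by simpa using hu)

theorem i_inj {G : Type} [Finite G] (f : G → G) (hf : Function.Injective f) (P : Set G) :
    {x | f x ∈ P}.ncard ≤ P.ncard :=
  ncard_le_ncard_of_injOn f (fun _ h => h) hf.injOn P.toFinite

theorem i_conj {G : Type} [Group G] [Finite G] (L : Subgroup G) (w : G) :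
    {x : G | x * w * x⁻¹ ∈ L}.ncard ≤ Nat.card L * fix L w := by
  have h1 : ((QuotientGroup.mk : G → G ⧸ L) ⁻¹' {c : G ⧸ L | w • c = c}).ncard =
      Nat.card L * fix L w := by
    have h2 := Nat.card_congr (QuotientGroup.preimageMkEquivSubgroupProdSet L
      {c : G ⧸ L | w • c = c})
    rw [Nat.card_prod] at h2
    exact h2
  rw [← h1]
  refine ncard_le_ncard_of_injOn (fun x => x⁻¹) (fun x hx => ?_) inv_injective.injOn (toFinite _)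
  show w • ((x⁻¹ : G) : G ⧸ L) = ((x⁻¹ : G) : G ⧸ L)
  symm
  show ((x⁻¹ : G) : G ⧸ L) = ((w * x⁻¹ : G) : G ⧸ L)
  rw [QuotientGroup.eq, inv_inv, ← mul_assoc]
  exact hx

theorem i_arith (q k n N1 N2 : ℕ) (hq : 1 ≤ q) (hn : 1 ≤ n) (h1 : 100 * (k + 1) * N1 ≤ n)
    (h2 : 100 * (k + 1) * N2 ≤ n) (h3 : 5000 * (k + 1) ^ 2 * q ≤ n) :
    12 * (q + k + N1 + N2 + k * (4 * q + 4 * N1) + k * k * (3 * q) +
      k * (100 * (k + 1) * q + q * (100 * (k + 1)))) < n := by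
  have h4 : 25 * (N1 + N2 + 4 * (k * N1)) ≤ n := by
    have h5 : (k + 1) * (25 * (N1 + N2 + 4 * (k * N1))) ≤ (k + 1) * n := by
      nlinarith [Nat.zero_le (k * N1), Nat.zero_le (k * n)]
    exact Nat.le_of_mul_le_mul_left h5 (Nat.succ_pos k)
  have h6 : q + k + 4 * (k * q) + 3 * (k * k * q) + 200 * (k * (k + 1) * q) ≤
      204 * ((k + 1) ^ 2 * q) := by
    nlinarith [Nat.zero_le (k * q), Nat.zero_le (k * k * q), Nat.mul_le_mul_left k hq]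
  have e : 12 * (q + k + N1 + N2 + k * (4 * q + 4 * N1) + k * k * (3 * q) +
      k * (100 * (k + 1) * q + q * (100 * (k + 1)))) =
      12 * (N1 + N2 + 4 * (k * N1)) + 12 * (q + k + 4 * (k * q) + 3 * (k * k * q) +
        200 * (k * (k + 1) * q)) := by ring
  rw [e]
  nlinarith

theorem t_I (hC1 : S_fixcount) (hC2 : S_rootcount) : S_insert := by
  intro G _ _ L S A k hS hSk hA hn
  obtain ⟨F, hF⟩ : ∃ F, F = 100 * (k + 1) := ⟨_, rfl⟩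
  rw [← hF] at hS ⊢
  obtain ⟨q, hq⟩ : ∃ q, q = Nat.card L := ⟨_, rfl⟩
  obtain ⟨n, hnn⟩ : ∃ n, n = Nat.card G := ⟨_, rfl⟩
  rw [← hq, ← hnn] at hn
  rw [← hnn] at hA
  have hLn : (L : Set G).ncard = q := by rw [hq]; rfl
  set X1 : Set G := {x : G | F < fix L x} with hX1
  set X2 : Set G := {x : G | F * Nat.card L < {y : G | y ^ 2 * x⁻¹ ∈ L}.ncard} with hX2
  have c1 : F * X1.ncard ≤ n := by rw [hnn]; exact hC1 G L F
  have c2 : F * X2.ncard ≤ n := by rw [hnn]; exact hC2 G L F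
  -- the bad sets
  set B1 : G → Set G := fun w => {x | x * w ∈ (L : Set G)} ∪ {x | x * w⁻¹ ∈ (L : Set G)} ∪
    {x | w * x ∈ (L : Set G)} ∪ {x | w * x⁻¹ ∈ (L : Set G)} ∪
    {x | x * w⁻¹ ∈ X1} ∪ {x | x * w ∈ X1} ∪ {x | w * x⁻¹ ∈ X1} ∪ {x | w * x ∈ X1} with hB1
  set B2 : G × G → Set G := fun p => {x | x * p.1 * p.2⁻¹ ∈ (L : Set G)} ∪
    {x | p.1 * x * p.2⁻¹ ∈ (L : Set G)} ∪ {x | p.1 * p.2 * x⁻¹ ∈ (L : Set G)} with hB2
  set B3 : G → Set G := fun w => {x | x ^ 2 * w⁻¹ ∈ L} ∪ {x | x * w * x⁻¹ ∈ L} with hB3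
  set Bad : Set G := (L : Set G) ∪ S ∪ X1 ∪ X2 ∪ (⋃ w ∈ S, B1 w) ∪ (⋃ p ∈ S ×ˢ S, B2 p) ∪
    (⋃ w ∈ S, B3 w) with hBad
  have i1 : ∀ w, Function.Injective fun x : G => x * w := fun w => mul_left_injective w
  have i2 : ∀ w, Function.Injective fun x : G => w * x := fun w => mul_right_injective w
  have i3 : ∀ w, Function.Injective fun x : G => w * x⁻¹ := fun w =>
    (mul_right_injective w).comp inv_injective
  have b1 : ∀ w ∈ S, (B1 w).ncard ≤ 4 * q + 4 * X1.ncard := by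
    intro w _
    have a1 := i_inj (fun x : G => x * w) (i1 w) (L : Set G)
    have a2 := i_inj (fun x : G => x * w⁻¹) (i1 w⁻¹) (L : Set G)
    have a3 := i_inj (fun x : G => w * x) (i2 w) (L : Set G)
    have a4 := i_inj (fun x : G => w * x⁻¹) (i3 w) (L : Set G)
    have a5 := i_inj (fun x : G => x * w⁻¹) (i1 w⁻¹) X1
    have a6 := i_inj (fun x : G => x * w) (i1 w) X1
    have a7 := i_inj (fun x : G => w * x⁻¹) (i3 w) X1
    have a8 := i_inj (fun x : G => w * x) (i2 w) X1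
    rw [hLn] at a1 a2 a3 a4
    have u1 := ncard_union_le ({x | x * w ∈ (L : Set G)} ∪ {x | x * w⁻¹ ∈ (L : Set G)} ∪
      {x | w * x ∈ (L : Set G)} ∪ {x | w * x⁻¹ ∈ (L : Set G)} ∪
      {x | x * w⁻¹ ∈ X1} ∪ {x | x * w ∈ X1} ∪ {x | w * x⁻¹ ∈ X1}) {x | w * x ∈ X1}
    have u2 := ncard_union_le ({x | x * w ∈ (L : Set G)} ∪ {x | x * w⁻¹ ∈ (L : Set G)} ∪
      {x | w * x ∈ (L : Set G)} ∪ {x | w * x⁻¹ ∈ (L : Set G)} ∪
      {x | x * w⁻¹ ∈ X1} ∪ {x | x * w ∈ X1}) {x | w * x⁻¹ ∈ X1}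
    have u3 := ncard_union_le ({x | x * w ∈ (L : Set G)} ∪ {x | x * w⁻¹ ∈ (L : Set G)} ∪
      {x | w * x ∈ (L : Set G)} ∪ {x | w * x⁻¹ ∈ (L : Set G)} ∪
      {x | x * w⁻¹ ∈ X1}) {x | x * w ∈ X1}
    have u4 := ncard_union_le ({x | x * w ∈ (L : Set G)} ∪ {x | x * w⁻¹ ∈ (L : Set G)} ∪
      {x | w * x ∈ (L : Set G)} ∪ {x | w * x⁻¹ ∈ (L : Set G)}) {x | x * w⁻¹ ∈ X1}
    have u5 := ncard_union_le ({x | x * w ∈ (L : Set G)} ∪ {x | x * w⁻¹ ∈ (L : Set G)} ∪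
      {x | w * x ∈ (L : Set G)}) {x | w * x⁻¹ ∈ (L : Set G)}
    have u6 := ncard_union_le ({x | x * w ∈ (L : Set G)} ∪ {x | x * w⁻¹ ∈ (L : Set G)})
      {x | w * x ∈ (L : Set G)}
    have u7 := ncard_union_le {x | x * w ∈ (L : Set G)} {x | x * w⁻¹ ∈ (L : Set G)}
    show ({x | x * w ∈ (L : Set G)} ∪ {x | x * w⁻¹ ∈ (L : Set G)} ∪
      {x | w * x ∈ (L : Set G)} ∪ {x | w * x⁻¹ ∈ (L : Set G)} ∪
      {x | x * w⁻¹ ∈ X1} ∪ {x | x * w ∈ X1} ∪ {x | w * x⁻¹ ∈ X1} ∪ {x | w * x ∈ X1}).ncard ≤ _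
    omega
  have b2 : ∀ p ∈ S ×ˢ S, (B2 p).ncard ≤ 3 * q := by
    rintro ⟨u, w⟩ _
    have a1 := i_inj (fun x : G => x * u * w⁻¹) ((i1 w⁻¹).comp (i1 u)) (L : Set G)
    have a2 := i_inj (fun x : G => u * x * w⁻¹) ((i1 w⁻¹).comp (i2 u)) (L : Set G)
    have a3 := i_inj (fun x : G => u * w * x⁻¹) (i3 (u * w)) (L : Set G)
    rw [hLn] at a1 a2 a3
    have u1 := ncard_union_le ({x | x * u * w⁻¹ ∈ (L : Set G)} ∪
      {x | u * x * w⁻¹ ∈ (L : Set G)}) {x | u * w * x⁻¹ ∈ (L : Set G)}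
    have u2 := ncard_union_le {x | x * u * w⁻¹ ∈ (L : Set G)} {x | u * x * w⁻¹ ∈ (L : Set G)}
    show ({x | x * u * w⁻¹ ∈ (L : Set G)} ∪
      {x | u * x * w⁻¹ ∈ (L : Set G)} ∪ {x | u * w * x⁻¹ ∈ (L : Set G)}).ncard ≤ _
    omega
  have b3 : ∀ w ∈ S, (B3 w).ncard ≤ F * q + q * F := by
    intro w hw
    have a1 := hS.root w hw
    have a2 := (i_conj L w).trans (Nat.mul_le_mul_left _ (hS.fix1 w hw))
    rw [← hq] at a1 a2
    exact (ncard_union_le _ _).trans (Nat.add_le_add a1 a2)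
  have bad : Bad.ncard ≤ q + k + X1.ncard + X2.ncard + k * (4 * q + 4 * X1.ncard) +
      k * k * (3 * q) + k * (F * q + q * F) := by
    have t1 := i_bUnion S B1 _ b1
    have t2 := i_bUnion (S ×ˢ S) B2 _ b2
    have t3 := i_bUnion S B3 _ b3
    rw [ncard_prod] at t2
    have t1' := t1.trans (Nat.mul_le_mul_right _ hSk)
    have t2' := t2.trans (Nat.mul_le_mul_right _ (Nat.mul_le_mul hSk hSk))
    have t3' := t3.trans (Nat.mul_le_mul_right _ hSk)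
    have u1 := ncard_union_le ((L : Set G) ∪ S ∪ X1 ∪ X2 ∪ (⋃ w ∈ S, B1 w) ∪
      (⋃ p ∈ S ×ˢ S, B2 p)) (⋃ w ∈ S, B3 w)
    have u2 := ncard_union_le ((L : Set G) ∪ S ∪ X1 ∪ X2 ∪ (⋃ w ∈ S, B1 w))
      (⋃ p ∈ S ×ˢ S, B2 p)
    have u3 := ncard_union_le ((L : Set G) ∪ S ∪ X1 ∪ X2) (⋃ w ∈ S, B1 w)
    have u4 := ncard_union_le ((L : Set G) ∪ S ∪ X1) X2
    have u5 := ncard_union_le ((L : Set G) ∪ S) X1
    have u6 := ncard_union_le (L : Set G) S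
    rw [hLn] at u6
    show ((L : Set G) ∪ S ∪ X1 ∪ X2 ∪ (⋃ w ∈ S, B1 w) ∪ (⋃ p ∈ S ×ˢ S, B2 p) ∪
      (⋃ w ∈ S, B3 w)).ncard ≤ _
    omega
  have hq1 : 1 ≤ q := by rw [hq]; exact Nat.card_pos
  have hn1 : 1 ≤ n := by rw [hnn]; exact Nat.card_pos
  have ar := i_arith q k n X1.ncard X2.ncard hq1 hn1 (by rw [← hF]; exact c1)
    (by rw [← hF]; exact c2) hn
  rw [← hF] at ar
  obtain ⟨x, hxA, hxB⟩ : ∃ x ∈ A, x ∉ Bad := by
    by_contra hc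
    push Not at hc
    have h5 : A.ncard ≤ Bad.ncard := ncard_le_ncard hc (toFinite _)
    omega
  simp only [hBad, mem_union, not_or, mem_iUnion, not_exists] at hxB
  obtain ⟨⟨⟨⟨⟨⟨x1, x2⟩, x3⟩, x4⟩, x5⟩, x6⟩, x7⟩ := hxB
  refine ⟨x, hxA, x2, ?_⟩
  have y5 : ∀ w ∈ S, x * w ∉ L ∧ x * w⁻¹ ∉ L ∧ w * x ∉ L ∧ w * x⁻¹ ∉ L ∧ fix L (x * w⁻¹) ≤ F ∧
      fix L (x * w) ≤ F ∧ fix L (w * x⁻¹) ≤ F ∧ fix L (w * x) ≤ F := by
    intro w hw
    have := x5 w hw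
    simp only [hB1, mem_union, not_or, mem_ofPred_eq, hX1, not_lt, SetLike.mem_coe] at this
    obtain ⟨⟨⟨⟨⟨⟨⟨z1, z2⟩, z3⟩, z4⟩, z5⟩, z6⟩, z7⟩, z8⟩ := this
    exact ⟨z1, z2, z3, z4, z5, z6, z7, z8⟩
  have y6 : ∀ u ∈ S, ∀ w ∈ S, x * u * w⁻¹ ∉ L ∧ u * x * w⁻¹ ∉ L ∧ u * w * x⁻¹ ∉ L := by
    intro u hu w hw
    have := x6 (u, w) ⟨hu, hw⟩
    simp only [hB2, mem_union, not_or, mem_ofPred_eq, SetLike.mem_coe] at this
    exact ⟨this.1.1, this.1.2, this.2⟩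
  have y7 : ∀ w ∈ S, x ^ 2 * w⁻¹ ∉ L ∧ x * w * x⁻¹ ∉ L := by
    intro w hw
    have := x7 w hw
    simp only [hB3, mem_union, not_or, mem_ofPred_eq] at this
    exact this
  refine ⟨?_, ?_, ?_, ?_, ?_⟩
  · rintro u (rfl | hu)
    · exact x1
    · exact hS.notL u hu
  · rintro u (rfl | hu)
    · simp only [hX1, mem_ofPred_eq, not_lt] at x3
      exact x3
    · exact hS.fix1 u hu
  · rintro u (rfl | hu)
    · simp only [hX2, mem_ofPred_eq, not_lt] at x4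
      exact x4
    · exact hS.root u hu
  · rintro u (rfl | hu) w (rfl | hw) huw
    · exact absurd rfl huw
    · obtain ⟨z1, z2, z3, z4, z5, z6, z7, z8⟩ := y5 w hw
      exact ⟨z1, z2, z5, z6⟩
    · obtain ⟨z1, z2, z3, z4, z5, z6, z7, z8⟩ := y5 u hu
      exact ⟨z3, z4, z7, z8⟩
    · exact hS.pair u hu w hw huw
  · rintro u (rfl | hu) w (rfl | hw) y (rfl | hy)
    · rw [mul_inv_cancel_right]
      exact x1
    · rw [← pow_two]
      exact (y7 y hy).1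
    · exact (y7 w hw).2
    · exact (y6 w hw y hy).1
    · rw [mul_inv_cancel_right]
      exact hS.notL u hu
    · exact (y6 u hu y hy).2.1
    · exact (y6 u hu w hw).2.2
    · exact hS.trip u hu w hw y hy

end H34.VM
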