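import Pool.Agent.H66.VM.I

/-!
# MP_d3cc9f_co, part T1: one more pair of cosets (helper66)
-/

set_option autoImplicit false

namespace H34.VM

open Set

theorem T1_arith (k t m D : ℕ) (ht : t ≤ 4 * (k + 1) ^ 2) (hm : 5000 * (k + 1) ^ 3 ≤ m)
    (hD : 2 * D ≤ m) : t + k * (4 * t + 4 * (100 * (k + 1))) + D < m := by
  have h1 : k * (4 * t) ≤ k * (16 * (k + 1) ^ 2) := Nat.mul_le_mul_left k (by omega)
  have h2 : t + k * (4 * t + 4 * (100 * (k + 1))) ≤ 420 * (k + 1) ^ 3 := by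
    have e1 : k * (4 * t + 4 * (100 * (k + 1))) = k * (4 * t) + 400 * (k * (k + 1)) := by ring
    rw [e1]
    have e2 : 4 * (k + 1) ^ 2 + k * (16 * (k + 1) ^ 2) + 400 * (k * (k + 1)) ≤
        420 * (k + 1) ^ 3 := by
      nlinarith [Nat.zero_le (k ^ 3), Nat.zero_le (k ^ 2), Nat.zero_le k]
    omega
  have h3 : 0 < (k + 1) ^ 3 := by positivity
  omega

theorem T1_generic {G : Type} [Group G] [Finite G] (L : Subgroup G) (S : Set G) (k : ℕ)
    (T : Set (G ⧸ L)) (s : G) (hC3 : S_fixhalf) (hL : (Nat.card L).Prime)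
    (hS : GoodSet L (100 * (k + 1)) S) (hSk : S.ncard ≤ k) (hs : s ∈ S)
    (hT : T.ncard ≤ 4 * (k + 1) ^ 2) (hm : 5000 * (k + 1) ^ 3 ≤ Nat.card (G ⧸ L)) :
    ∃ c : G ⧸ L, c ∉ T ∧ (∀ u ∈ S, u • c ∉ T ∧ u⁻¹ • c ∉ T ∧ u • s⁻¹ • c ∉ T ∧
      u⁻¹ • s⁻¹ • c ∉ T ∧ u • c ≠ c ∧ u • s⁻¹ • c ≠ s⁻¹ • c ∧ (u ≠ s → u • s⁻¹ • c ≠ c) ∧
      (u ≠ s → u • c ≠ s⁻¹ • c)) ∧ ((∃ d : G ⧸ L, s ^ 2 • d ≠ d) → s ^ 2 • c ≠ c) := by
  obtain ⟨F, hF⟩ : ∃ F, F = 100 * (k + 1) := ⟨_, rfl⟩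
  rw [← hF] at hS
  set B : G → Set (G ⧸ L) := fun u => {c | u • c ∈ T} ∪ {c | u⁻¹ • c ∈ T} ∪
    {c | u • s⁻¹ • c ∈ T} ∪ {c | u⁻¹ • s⁻¹ • c ∈ T} ∪ {c | u • c = c} ∪
    {c | u • s⁻¹ • c = s⁻¹ • c} ∪ {c | u ≠ s ∧ u • s⁻¹ • c = c} ∪
    {c | u ≠ s ∧ u • c = s⁻¹ • c} with hB
  set D : Set (G ⧸ L) := {c | (∃ d : G ⧸ L, s ^ 2 • d ≠ d) ∧ s ^ 2 • c = c} with hD
  have i0 : ∀ g : G, Function.Injective fun c : G ⧸ L => g • c := fun g => MulAction.injective g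
  have b1 : ∀ u ∈ S, (B u).ncard ≤ 4 * T.ncard + 4 * F := by
    intro u hu
    have a1 := i_inj (fun c : G ⧸ L => u • c) (i0 u) T
    have a2 := i_inj (fun c : G ⧸ L => u⁻¹ • c) (i0 u⁻¹) T
    have a3 := i_inj (fun c : G ⧸ L => u • s⁻¹ • c) ((i0 u).comp (i0 s⁻¹)) T
    have a4 := i_inj (fun c : G ⧸ L => u⁻¹ • s⁻¹ • c) ((i0 u⁻¹).comp (i0 s⁻¹)) T
    have a5 : {c : G ⧸ L | u • c = c}.ncard ≤ F := hS.fix1 u hu
    have a6 : {c : G ⧸ L | u • s⁻¹ • c = s⁻¹ • c}.ncard ≤ F :=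
      (i_inj (fun c : G ⧸ L => s⁻¹ • c) (i0 s⁻¹) {c : G ⧸ L | u • c = c}).trans a5
    have a7 : {c : G ⧸ L | u ≠ s ∧ u • s⁻¹ • c = c}.ncard ≤ F := by
      by_cases hus : u = s
      · have : {c : G ⧸ L | u ≠ s ∧ u • s⁻¹ • c = c} = ∅ := by
          ext c
          simp [hus]
        rw [this, ncard_empty]
        exact Nat.zero_le _
      · refine le_trans (ncard_le_ncard ?_ (toFinite _)) (hS.pair u hu s hs hus).2.2.1
        intro c hc
        show (u * s⁻¹) • c = c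
        rw [mul_smul]
        exact hc.2
    have a8 : {c : G ⧸ L | u ≠ s ∧ u • c = s⁻¹ • c}.ncard ≤ F := by
      by_cases hus : u = s
      · have : {c : G ⧸ L | u ≠ s ∧ u • c = s⁻¹ • c} = ∅ := by
          ext c
          simp [hus]
        rw [this, ncard_empty]
        exact Nat.zero_le _
      · refine le_trans (ncard_le_ncard ?_ (toFinite _)) (hS.pair s hs u hu (Ne.symm hus)).2.2.2
        intro c hc
        show (s * u) • c = c
        rw [mul_smul, hc.2, smul_inv_smul]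
    have u1 := ncard_union_le ({c : G ⧸ L | u • c ∈ T} ∪ {c | u⁻¹ • c ∈ T} ∪
      {c | u • s⁻¹ • c ∈ T} ∪ {c | u⁻¹ • s⁻¹ • c ∈ T} ∪ {c | u • c = c} ∪
      {c | u • s⁻¹ • c = s⁻¹ • c} ∪ {c | u ≠ s ∧ u • s⁻¹ • c = c}) {c | u ≠ s ∧ u • c = s⁻¹ • c}
    have u2 := ncard_union_le ({c : G ⧸ L | u • c ∈ T} ∪ {c | u⁻¹ • c ∈ T} ∪
      {c | u • s⁻¹ • c ∈ T} ∪ {c | u⁻¹ • s⁻¹ • c ∈ T} ∪ {c | u • c = c} ∪
      {c | u • s⁻¹ • c = s⁻¹ • c}) {c | u ≠ s ∧ u • s⁻¹ • c = c}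
    have u3 := ncard_union_le ({c : G ⧸ L | u • c ∈ T} ∪ {c | u⁻¹ • c ∈ T} ∪
      {c | u • s⁻¹ • c ∈ T} ∪ {c | u⁻¹ • s⁻¹ • c ∈ T} ∪ {c | u • c = c})
      {c | u • s⁻¹ • c = s⁻¹ • c}
    have u4 := ncard_union_le ({c : G ⧸ L | u • c ∈ T} ∪ {c | u⁻¹ • c ∈ T} ∪
      {c | u • s⁻¹ • c ∈ T} ∪ {c | u⁻¹ • s⁻¹ • c ∈ T}) {c | u • c = c}
    have u5 := ncard_union_le ({c : G ⧸ L | u • c ∈ T} ∪ {c | u⁻¹ • c ∈ T} ∪
      {c | u • s⁻¹ • c ∈ T}) {c | u⁻¹ • s⁻¹ • c ∈ T}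
    have u6 := ncard_union_le ({c : G ⧸ L | u • c ∈ T} ∪ {c | u⁻¹ • c ∈ T})
      {c | u • s⁻¹ • c ∈ T}
    have u7 := ncard_union_le {c : G ⧸ L | u • c ∈ T} {c | u⁻¹ • c ∈ T}
    show ({c : G ⧸ L | u • c ∈ T} ∪ {c | u⁻¹ • c ∈ T} ∪
      {c | u • s⁻¹ • c ∈ T} ∪ {c | u⁻¹ • s⁻¹ • c ∈ T} ∪ {c | u • c = c} ∪
      {c | u • s⁻¹ • c = s⁻¹ • c} ∪ {c | u ≠ s ∧ u • s⁻¹ • c = c} ∪
      {c | u ≠ s ∧ u • c = s⁻¹ • c}).ncard ≤ _
    omega
  have b2 : 2 * D.ncard ≤ Nat.card (G ⧸ L) := by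
    by_cases h : ∃ d : G ⧸ L, s ^ 2 • d ≠ d
    · have h1 := hC3 G L (s ^ 2) hL h
      have h2 : D = {c : G ⧸ L | s ^ 2 • c = c} := by
        ext c
        simp only [hD, mem_ofPred_eq]
        exact ⟨fun h' => h'.2, fun h' => ⟨h, h'⟩⟩
      rw [h2]
      exact h1
    · have h2 : D = ∅ := by
        ext c
        simp only [hD, mem_ofPred_eq, mem_empty_iff_false, iff_false]
        exact fun h' => h h'.1
      rw [h2, ncard_empty]
      exact Nat.zero_le _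
  have t1 := i_bUnion S B _ b1
  have t1' := t1.trans (Nat.mul_le_mul_right _ hSk)
  have u1 := ncard_union_le (T ∪ (⋃ u ∈ S, B u)) D
  have u2 := ncard_union_le T (⋃ u ∈ S, B u)
  have ar := T1_arith k T.ncard _ D.ncard hT hm b2
  rw [← hF] at ar
  obtain ⟨c, hc⟩ : ∃ c, c ∉ (T ∪ (⋃ u ∈ S, B u)) ∪ D := by
    by_contra hcon
    push Not at hcon
    have h5 : (T ∪ (⋃ u ∈ S, B u)) ∪ D = univ := eq_univ_of_forall hcon
    rw [h5, ncard_univ] at u1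
    omega
  simp only [mem_union, not_or, mem_iUnion, not_exists] at hc
  obtain ⟨⟨x1, x2⟩, x3⟩ := hc
  refine ⟨c, x1, fun u hu => ?_, fun hd h => x3 ⟨hd, h⟩⟩
  have := x2 u hu
  simp only [hB, mem_union, not_or, mem_ofPred_eq, not_and] at this
  obtain ⟨⟨⟨⟨⟨⟨⟨z1, z2⟩, z3⟩, z4⟩, z5⟩, z6⟩, z7⟩, z8⟩ := this
  exact ⟨z1, z2, z3, z4, z5, z6, z7, z8⟩

open Classical in
theorem t_T1 (hC3 : S_fixhalf) : S_step := by
  intro G _ _ L S k T o s hL hS hSk hs hcfg hT hm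
  obtain ⟨c, hc, hc1, hc2⟩ := T1_generic L S k T s hC3 hL hS hSk hs hT hm
  obtain ⟨c', hc'⟩ : ∃ c', c' = s⁻¹ • c := ⟨_, rfl⟩
  rw [← hc'] at hc1
  have hsc : s • c' = c := by rw [hc', smul_inv_smul]
  have hc'T : c' ∉ T := by rw [hc']; exact (hc1 s hs).2.1
  have hne : c ≠ c' := by
    intro h
    apply (hc1 s hs).2.2.2.2.1
    exact (congrArg (fun x => s • x) h).trans hsc
  have hmem : ∀ t : G ⧸ L, t ∈ T ∪ {c, c'} ↔ t ∈ T ∨ t = c ∨ t = c' := fun t => Iff.rfl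
  -- the arcs
  have key : ∀ u ∈ S, ∀ t, t ∈ T ∪ {c, c'} → u • t ∈ T ∪ {c, c'} → (t ∈ T ∧ u • t ∈ T) ∨
      (u = s ∧ t ∉ T ∧ u • t ∉ T ∧ ((t = c' ∧ u • t = c) ∨ (t = c ∧ u • t = c'))) := by
    intro u hu t ht hut
    obtain ⟨z1, z2, z3, z4, z5, z6, z7, z8⟩ := hc1 u hu
    rw [hmem] at ht hut
    rcases ht with ht | rfl | rfl
    · rcases hut with hut | hut | hut
      · exact Or.inl ⟨ht, hut⟩
      · exfalso
        apply z2
        rw [← hut, inv_smul_smul]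
        exact ht
      · exfalso
        apply z4
        rw [← hut, inv_smul_smul]
        exact ht
    · rcases hut with hut | hut | hut
      · exact absurd hut z1
      · exact absurd hut z5
      · by_cases hus : u = s
        · exact Or.inr ⟨hus, hc, by rw [hut]; exact hc'T, Or.inr ⟨rfl, hut⟩⟩
        · exact absurd hut (z8 hus)
    · rcases hut with hut | hut | hut
      · exact absurd hut z3
      · by_cases hus : u = s
        · exact Or.inr ⟨hus, hc'T, by rw [hut]; exact hc, Or.inl ⟨rfl, hut⟩⟩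
        · exact absurd hut (z7 hus)
      · exact absurd hut z6
  refine ⟨T ∪ {c, c'}, fun t => if t ∈ T then o t else s, ?_, ?_, ?_, ?_⟩
  · refine ⟨Or.inl hcfg.base, fun u hu => Or.inl (hcfg.leaf u hu), ?_, ?_, ?_⟩
    · intro u hu t ht hut hb
      rcases key u hu t ht hut with ⟨h1, h2⟩ | ⟨h1, h2, h3, h4⟩
      · simp only [if_pos h2]
        exact hcfg.e1 u hu t h1 h2 hb
      · simp only [if_neg h3]
        exact h1.symm
    · intro u hu t ht hut hb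
      rcases key u hu t ht hut with ⟨h1, h2⟩ | ⟨h1, h2, h3, h4⟩
      · simp only [if_pos h1]
        exact hcfg.e2 u hu t h1 h2 hb
      · simp only [if_neg h2]
        exact h1.symm
    · intro u hu hub
      rcases key u hu _ (Or.inl hcfg.base) hub with ⟨h1, h2⟩ | ⟨h1, h2, h3, h4⟩
      · exact hcfg.e3 u hu h2
      · exact absurd hcfg.base h2
  · refine (ncard_union_le _ _).trans (Nat.add_le_add_left ?_ _)
    exact ncard_insert_le _ _ |>.trans (by rw [ncard_singleton])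
  · intro u hu hus
    unfold lab
    congr 1
    ext t
    constructor
    · rintro ⟨h1, h2⟩
      rcases key u hu (u⁻¹ • t) h2 (by rw [smul_inv_smul]; exact h1) with ⟨h3, h4⟩ | ⟨h3, -⟩
      · rw [smul_inv_smul] at h4
        exact ⟨h4, h3⟩
      · exact absurd h3 hus
    · rintro ⟨h1, h2⟩
      exact ⟨Or.inl h1, Or.inl h2⟩
  · have hset : {t : G ⧸ L | t ∈ T ∪ {c, c'} ∧ s⁻¹ • t ∈ T ∪ {c, c'}} =
        {t : G ⧸ L | t ∈ T ∧ s⁻¹ • t ∈ T} ∪ {t | t = c ∨ (t = c' ∧ s⁻¹ • t = c)} := by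
      ext t
      constructor
      · rintro ⟨h1, h2⟩
        rcases key s hs (s⁻¹ • t) h2 (by rw [smul_inv_smul]; exact h1) with ⟨h3, h4⟩ |
          ⟨-, -, -, h3 | h3⟩
        · rw [smul_inv_smul] at h4
          exact Or.inl ⟨h4, h3⟩
        · rw [smul_inv_smul] at h3
          exact Or.inr (Or.inl h3.2)
        · rw [smul_inv_smul] at h3
          exact Or.inr (Or.inr ⟨h3.2, h3.1⟩)
      · rintro (⟨h1, h2⟩ | h1 | ⟨h1, h2⟩)
        · exact ⟨Or.inl h1, Or.inl h2⟩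
        · exact ⟨Or.inr (Or.inl h1), Or.inr (Or.inr (by rw [h1, hc']; rfl))⟩
        · exact ⟨Or.inr (Or.inr h1), Or.inr (Or.inl h2)⟩
    have hdisj : Disjoint {t : G ⧸ L | t ∈ T ∧ s⁻¹ • t ∈ T}
        {t | t = c ∨ (t = c' ∧ s⁻¹ • t = c)} := by
      rw [Set.disjoint_left]
      rintro t ⟨h1, -⟩ (h2 | ⟨h2, -⟩)
      · exact hc (h2 ▸ h1)
      · exact hc'T (h2 ▸ h1)
    unfold lab
    rw [hset, ncard_union_eq hdisj]
    congr 1
    unfold wt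
    split_ifs with h
    · have h1 : {t : G ⧸ L | t = c ∨ (t = c' ∧ s⁻¹ • t = c)} = {c, c'} := by
        ext t
        constructor
        · rintro (h2 | ⟨h2, -⟩)
          · exact Or.inl h2
          · exact Or.inr h2
        · rintro (h2 | h2)
          · exact Or.inl h2
          · have h2' : t = c' := h2
            refine Or.inr ⟨h2', ?_⟩
            rw [h2', hc']
            have h3 := h c
            rw [pow_two, mul_smul] at h3
            conv_lhs => rw [← h3]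
            rw [inv_smul_smul, inv_smul_smul]
      rw [h1, ncard_pair hne]
    · push Not at h
      have h1 : {t : G ⧸ L | t = c ∨ (t = c' ∧ s⁻¹ • t = c)} = {c} := by
        ext t
        constructor
        · rintro (h2 | ⟨h2, h3⟩)
          · exact h2
          · exfalso
            apply hc2 h
            rw [h2, hc'] at h3
            rw [pow_two, mul_smul]
            conv_lhs => rw [← h3]
            rw [smul_inv_smul, smul_inv_smul]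
        · intro h2
          exact Or.inl h2
      rw [h1, ncard_singleton]

end H34.VM
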